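import Pool.Agent.H29.UDP.TLat

/-!
# MP_47c37b, row CEB: the bound for the field in the box
-/

set_option autoImplicit false

open MeasureTheory Filter Topology
open scoped ENNReal InnerProductSpace

namespace Pool.Agent.H17.UDP

open Pool.Agent.H43.DPC (V)
open Pool.Agent.H29.UDP

section fin

variable {ι : Type} [Fintype ι]

theorem bound_mul (a a' φ : ι → ℝ) : |(∑ x, a x * φ x) * ∑ x, a' x * φ x| ≤
    (1 / 2 * (∑ x, a x ^ 2 + ∑ x, a' x ^ 2) + 1) *
      Real.exp ((1 / 2 * (∑ x, a x ^ 2 + ∑ x, a' x ^ 2) + 1) * ∑ x, φ x ^ 2) := by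
  set K := 1 / 2 * (∑ x, a x ^ 2 + ∑ x, a' x ^ 2) with hK
  set S := ∑ x, φ x ^ 2 with hS
  have hS0 : 0 ≤ S := Finset.sum_nonneg fun x _ => sq_nonneg _
  have hK0 : 0 ≤ K := by
    have h1 : 0 ≤ ∑ x, a x ^ 2 := Finset.sum_nonneg fun x _ => sq_nonneg _
    have h2 : 0 ≤ ∑ x, a' x ^ 2 := Finset.sum_nonneg fun x _ => sq_nonneg _
    rw [hK]
    linarith
  have h1 : (∑ x, a x * φ x) ^ 2 ≤ (∑ x, a x ^ 2) * S := Finset.sum_mul_sq_le_sq_mul_sq _ _ _
  have h2 : (∑ x, a' x * φ x) ^ 2 ≤ (∑ x, a' x ^ 2) * S := Finset.sum_mul_sq_le_sq_mul_sq _ _ _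
  have h3 : |(∑ x, a x * φ x) * ∑ x, a' x * φ x| ≤ K * S := by
    rw [abs_le]
    constructor <;> nlinarith [sq_nonneg ((∑ x, a x * φ x) + ∑ x, a' x * φ x),
      sq_nonneg ((∑ x, a x * φ x) - ∑ x, a' x * φ x)]
  have h4 : S ≤ Real.exp ((K + 1) * S) := by
    have h5 := Real.add_one_le_exp ((K + 1) * S)
    nlinarith [mul_nonneg hK0 hS0]
  have h6 : 0 < Real.exp ((K + 1) * S) := Real.exp_pos _
  calc _ ≤ K * S := h3
    _ ≤ K * Real.exp ((K + 1) * S) := mul_le_mul_of_nonneg_left h4 hK0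
    _ ≤ _ := by nlinarith

theorem integrable_mul' (hGLW : T_GLW) (J : ι → ι → ℝ) (g b : ι → ℝ) (hg : ∀ x, 0 < g x)
    (a a' : ι → ℝ) :
    Integrable (fun φ : ι → ℝ => (∑ x, a x * φ x) * ∑ x, a' x * φ x) (glaw J g b) := by
  refine (hGLW ι J g b hg).2.2.2.2 _ _ (by fun_prop) (fun φ => bound_mul a a' φ)

theorem offdiag (hGLW : T_GLW) (g b : ι → ℝ) (hg : ∀ x, 0 < g x) (x y : ι) (hxy : x ≠ y) :
    ∫ φ : ι → ℝ, φ x * φ y ∂(glaw (fun _ _ => 0) g b) = 0 := by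
  classical
  rw [(hGLW ι (fun _ _ => 0) g b hg).2.2.2.1]
  suffices h : ∫ φ : ι → ℝ, φ x * φ y * Real.exp (-gH (fun _ _ => 0) g b φ) = 0 by
    rw [h, zero_div]
  set F : (ι → ℝ) → ℝ := fun φ => φ x * φ y * Real.exp (-gH (fun _ _ => 0) g b φ) with hF
  let f : ι → ℝ → ℝ := fun k => if k = x then Neg.neg else id
  have hf : ∀ k, MeasurePreserving (f k) := by
    intro k
    by_cases hk : k = x
    · have : f k = Neg.neg := if_pos hk
      rw [this]
      exact Measure.measurePreserving_neg volume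
    · have : f k = id := if_neg hk
      rw [this]
      exact MeasurePreserving.id volume
  have hT : MeasurePreserving (fun (φ : ι → ℝ) k => f k (φ k)) volume volume :=
    volume_preserving_pi hf
  have hcont : Continuous F := by
    rw [hF]
    unfold gH
    fun_prop
  have h1 : ∫ φ : ι → ℝ, F φ = ∫ φ : ι → ℝ, F (fun k => f k (φ k)) := by
    have h2 := integral_map (μ := (volume : Measure (ι → ℝ))) hT.measurable.aemeasurable
      (f := F) hcont.aestronglyMeasurable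
    rw [hT.map_eq] at h2
    exact h2
  have h3 : ∀ φ : ι → ℝ, F (fun k => f k (φ k)) = -F φ := by
    intro φ
    have h4 : ∀ k, (f k (φ k)) ^ 2 = φ k ^ 2 := by
      intro k
      by_cases hk : k = x
      · have : f k = Neg.neg := if_pos hk
        rw [this]
        exact neg_sq _
      · have : f k = id := if_neg hk
        rw [this]
        rfl
    have h5 : ∀ k, (f k (φ k)) ^ 4 = φ k ^ 4 := by
      intro k
      have h6 : (f k (φ k)) ^ 4 = ((f k (φ k)) ^ 2) ^ 2 := by ring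
      rw [h6, h4]
      ring
    have hx : f x (φ x) = -φ x := by
      have : f x = Neg.neg := if_pos rfl
      rw [this]
    have hy : f y (φ y) = φ y := by
      have : f y = id := if_neg hxy.symm
      rw [this]
      rfl
    have hH : gH (fun _ _ => (0 : ℝ)) g b (fun k => f k (φ k)) = gH (fun _ _ => 0) g b φ := by
      unfold gH
      simp only [h4, h5, zero_mul]
    simp only [hF]
    rw [hx, hy, hH]
    ring
  simp only [h3] at h1
  rw [integral_neg] at h1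
  linarith

theorem griffiths_zero (hGLW : T_GLW) (g b : ι → ℝ) (hg : ∀ x, 0 < g x) (a a' : ι → ℝ)
    (ha : ∀ x, 0 ≤ a x) (ha' : ∀ x, 0 ≤ a' x) :
    0 ≤ ∫ φ : ι → ℝ, (∑ x, a x * φ x) * (∑ x, a' x * φ x) ∂(glaw (fun _ _ => 0) g b) := by
  classical
  have hint : ∀ x y : ι, Integrable (fun φ : ι → ℝ => φ x * φ y) (glaw (fun _ _ => 0) g b) := by
    intro x y
    have h := integrable_mul' hGLW (fun _ _ => 0) g b hg (fun z => if z = x then 1 else 0)
      (fun z => if z = y then 1 else 0)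
    simpa using h
  have h1 : ∀ φ : ι → ℝ, (∑ x, a x * φ x) * (∑ x, a' x * φ x) =
      ∑ x, ∑ y, a x * a' y * (φ x * φ y) := by
    intro φ
    rw [Finset.sum_mul_sum]
    exact Finset.sum_congr rfl fun x _ => Finset.sum_congr rfl fun y _ => by ring
  simp only [h1]
  rw [integral_finsetSum _ fun x _ => integrable_finsetSum _ fun y _ => (hint x y).const_mul _]
  refine Finset.sum_nonneg fun x _ => ?_
  rw [integral_finsetSum _ fun y _ => (hint x y).const_mul _]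
  refine Finset.sum_nonneg fun y _ => ?_
  rw [integral_const_mul]
  refine mul_nonneg (mul_nonneg (ha x) (ha' y)) ?_
  by_cases hxy : x = y
  · subst hxy
    exact integral_nonneg fun φ => mul_self_nonneg _
  · rw [offdiag hGLW g b hg x y hxy]

theorem griffiths_one (hGLW : T_GLW) (hMO2 : T_MO2) (J : ι → ι → ℝ) (g b : ι → ℝ)
    (hg : ∀ x, 0 < g x) (hJ : ∀ x y, 0 ≤ J x y) (a a' : ι → ℝ)
    (ha : ∀ x, 0 ≤ a x) (ha' : ∀ x, 0 ≤ a' x) :
    0 ≤ ∫ φ : ι → ℝ, (∑ x, a x * φ x) * (∑ x, a' x * φ x) ∂(glaw J g b) := by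
  have h := hMO2 ι (fun _ _ => 0) J g b b hg (fun _ _ => le_rfl) hJ (fun _ => le_rfl) 2
    (fun i => if i = 0 then a else a') (fun i x => by
      by_cases hi : i = 0
      · simp only [hi, if_true]; exact ha x
      · simp only [hi, if_false]; exact ha' x)
  simp only [Fin.prod_univ_two, Fin.isValue, if_true, one_ne_zero, if_false] at h
  exact (griffiths_zero hGLW g b hg a a' ha ha').trans h

theorem mono_coef (hGLW : T_GLW) (hMO2 : T_MO2) (J : ι → ι → ℝ) (g b : ι → ℝ)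
    (hg : ∀ x, 0 < g x) (hJ : ∀ x y, 0 ≤ J x y) (a a' : ι → ℝ)
    (ha : ∀ x, 0 ≤ a x) (haa : ∀ x, a x ≤ a' x) :
    ∫ φ : ι → ℝ, (∑ x, a x * φ x) ^ 2 ∂(glaw J g b) ≤
      ∫ φ : ι → ℝ, (∑ x, a' x * φ x) ^ 2 ∂(glaw J g b) := by
  have h1 := griffiths_one hGLW hMO2 J g b hg hJ (fun x => a' x - a x) (fun x => a' x + a x)
    (fun x => sub_nonneg.2 (haa x)) (fun x => add_nonneg ((ha x).trans (haa x)) (ha x))
  have h2 : ∀ φ : ι → ℝ, (∑ x, (a' x - a x) * φ x) * (∑ x, (a' x + a x) * φ x) =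
      (∑ x, a' x * φ x) ^ 2 - (∑ x, a x * φ x) ^ 2 := by
    intro φ
    have h3 : ∑ x, (a' x - a x) * φ x = ∑ x, a' x * φ x - ∑ x, a x * φ x := by
      rw [← Finset.sum_sub_distrib]
      exact Finset.sum_congr rfl fun x _ => by ring
    have h4 : ∑ x, (a' x + a x) * φ x = ∑ x, a' x * φ x + ∑ x, a x * φ x := by
      rw [← Finset.sum_add_distrib]
      exact Finset.sum_congr rfl fun x _ => by ring
    rw [h3, h4]
    ring
  simp only [h2] at h1
  have i1 : Integrable (fun φ : ι → ℝ => (∑ x, a' x * φ x) ^ 2) (glaw J g b) := by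
    simp only [pow_two]
    exact integrable_mul' hGLW J g b hg a' a'
  have i2 : Integrable (fun φ : ι → ℝ => (∑ x, a x * φ x) ^ 2) (glaw J g b) := by
    simp only [pow_two]
    exact integrable_mul' hGLW J g b hg a a
  rw [integral_sub i1 i2] at h1
  linarith

end fin

theorem pJ_nonneg (δ κ κ' s : ℝ) (hκ : 0 ≤ κ) (hκ' : 0 ≤ κ') {d N : ℕ} (z : Fin d → ZMod N) :
    0 ≤ pJ δ κ κ' s z := by
  unfold pJ
  refine tsum_nonneg fun m => ?_
  split_ifs
  · exact add_nonneg (mul_nonneg hκ (Real.rpow_nonneg (norm_nonneg _) _)) hκ'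
  · exact add_nonneg (mul_nonneg hκ (Real.rpow_nonneg (norm_nonneg _) _)) le_rfl
  · exact le_rfl

/-- the comparison with a cube of the torus -/
theorem box_le (hBXT : T_BXT) (hGLW : T_GLW) (hMO2 : T_MO2) (d L N : ℕ) [NeZero N]
    (δ κ κ' s g b w : ℝ) (hLN : 2 * L ≤ N) (hδ : 0 < δ) (hκ : 0 ≤ κ) (hκ' : 0 ≤ κ')
    (hs : (d : ℝ) < 2 * s) (hg : 0 < g) (hw : 0 ≤ w) (h : V d → ℝ) (hh : ∀ x, 0 ≤ h x ∧ h x ≤ 1)
    (y0 : Fin d → ZMod N) (l : ℕ)
    (hc : ∀ x : Bx d L, h (bpos δ x) ≠ 0 → (fun j => ((x j : ℕ) : ZMod N)) ∈ cub y0 l) :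
    ∫ φ : Bx d L → ℝ, (∑ x, w * φ x * h (bpos δ x)) ^ 2 ∂(bgibbs d L δ κ κ' s g b) ≤
      w ^ 2 * ∫ φ : (Fin d → ZMod N) → ℝ, (∑ x ∈ cub y0 l, φ x) ^ 2
        ∂(tgibbs d N δ κ κ' s g b) := by
  classical
  set e : Bx d L → (Fin d → ZMod N) := fun x j => ((x j : ℕ) : ZMod N) with he
  have hinj : Function.Injective e := by
    intro x y hxy
    funext j
    have h1 : ((x j : ℕ) : ZMod N) = ((y j : ℕ) : ZMod N) := congrFun hxy j
    rw [ZMod.natCast_eq_natCast_iff', Nat.mod_eq_of_lt (lt_of_lt_of_le (x j).2 hLN),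
      Nat.mod_eq_of_lt (lt_of_lt_of_le (y j).2 hLN)] at h1
    exact Fin.ext h1
  set c : Bx d L → ℝ := fun x => w * h (bpos δ x) with hcdef
  have hc0 : ∀ x, 0 ≤ c x := fun x => mul_nonneg hw (hh _).1
  have h1 := hBXT d L N δ κ κ' s g b hLN hδ hκ hκ' hs hg c hc0
  have h2 : ∀ φ : Bx d L → ℝ, ∑ x, w * φ x * h (bpos δ x) = ∑ x, c x * φ x := fun φ =>
    Finset.sum_congr rfl fun x _ => by simp only [hcdef]; ring
  simp only [h2]
  refine h1.trans ?_
  set C : (Fin d → ZMod N) → ℝ := fun z => ∑ x, if e x = z then c x else 0 with hC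
  have h3 : ∀ φ : (Fin d → ZMod N) → ℝ, ∑ x : Bx d L, c x * φ (e x) = ∑ z, C z * φ z := by
    intro φ
    simp only [hC, Finset.sum_mul]
    rw [Finset.sum_comm]
    refine Finset.sum_congr rfl fun x _ => ?_
    rw [Finset.sum_eq_single (e x)]
    · rw [if_pos rfl]
    · intro z _ hz
      rw [if_neg hz.symm, zero_mul]
    · intro hx
      exact absurd (Finset.mem_univ _) hx
  have hC0 : ∀ z, 0 ≤ C z := fun z => Finset.sum_nonneg fun x _ => by
    split_ifs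
    · exact hc0 x
    · exact le_rfl
  have hC1 : ∀ z, C z ≤ w * (if z ∈ cub y0 l then 1 else 0) := by
    intro z
    by_cases hz : ∃ x, e x = z ∧ h (bpos δ x) ≠ 0
    · obtain ⟨x0, hx0, hx1⟩ := hz
      have h4 : C z = c x0 := by
        simp only [hC]
        rw [Finset.sum_eq_single x0]
        · rw [if_pos hx0]
        · intro x _ hx
          rw [if_neg fun h5 => hx (hinj (h5.trans hx0.symm))]
        · intro hx
          exact absurd (Finset.mem_univ _) hx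
      have h5 : z ∈ cub y0 l := hx0 ▸ hc x0 hx1
      rw [h4, if_pos h5]
      exact mul_le_mul_of_nonneg_left (hh _).2 hw
    · push Not at hz
      have h4 : C z = 0 := Finset.sum_eq_zero fun x _ => by
        split_ifs with h5
        · simp only [hcdef]
          rw [hz x h5, mul_zero]
        · rfl
      rw [h4]
      refine mul_nonneg hw ?_
      split_ifs
      · exact zero_le_one
      · exact le_rfl
  have h6 := mono_coef hGLW hMO2 (fun x y : Fin d → ZMod N => pJ δ κ κ' s (x - y)) (fun _ => g)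
    (fun _ => b) (fun _ => hg) (fun x y => pJ_nonneg δ κ κ' s hκ hκ' _) C
    (fun z => w * (if z ∈ cub y0 l then 1 else 0)) hC0 hC1
  have h7 : ∀ φ : (Fin d → ZMod N) → ℝ,
      ∑ z, w * (if z ∈ cub y0 l then 1 else 0) * φ z = w * ∑ x ∈ cub y0 l, φ x := by
    intro φ
    rw [Finset.mul_sum, ← Finset.sum_filter_add_sum_filter_not Finset.univ (fun z => z ∈ cub y0 l)]
    have h8 : (Finset.univ.filter fun z => z ∈ cub y0 l) = cub y0 l := by
      ext z
      simp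
    rw [h8]
    have h9 : ∑ z ∈ Finset.univ.filter (fun z => ¬ z ∈ cub y0 l),
        w * (if z ∈ cub y0 l then 1 else 0) * φ z = 0 := Finset.sum_eq_zero fun z hz => by
      rw [if_neg (Finset.mem_filter.1 hz).2, mul_zero, zero_mul]
    rw [h9, add_zero]
    refine Finset.sum_congr rfl fun z hz => ?_
    rw [if_pos hz, mul_one]
  simp only [h7] at h6
  have h10 : ∫ φ : (Fin d → ZMod N) → ℝ, (∑ x : Bx d L, c x * φ (e x)) ^ 2
      ∂(tgibbs d N δ κ κ' s g b) = ∫ φ : (Fin d → ZMod N) → ℝ, (∑ z, C z * φ z) ^ 2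
      ∂(tgibbs d N δ κ κ' s g b) := by
    simp only [h3]
  have h11 : ∫ φ : (Fin d → ZMod N) → ℝ, (w * ∑ x ∈ cub y0 l, φ x) ^ 2
      ∂(tgibbs d N δ κ κ' s g b) = w ^ 2 * ∫ φ : (Fin d → ZMod N) → ℝ, (∑ x ∈ cub y0 l, φ x) ^ 2
      ∂(tgibbs d N δ κ κ' s g b) := by
    rw [← integral_const_mul]
    simp only [mul_pow]
  calc _ = ∫ φ : (Fin d → ZMod N) → ℝ, (∑ z, C z * φ z) ^ 2 ∂(tgibbs d N δ κ κ' s g b) := h10
    _ ≤ ∫ φ : (Fin d → ZMod N) → ℝ, (w * ∑ x ∈ cub y0 l, φ x) ^ 2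
      ∂(tgibbs d N δ κ κ' s g b) := h6
    _ = _ := h11

theorem pf_CEB (hBXT : T_BXT) (hBCT : T_BCT) (hCUB : T_CUB) (hGLW : T_GLW) (hMO2 : T_MO2) :
    T_CEB := by
  intro d α hα hαd
  obtain ⟨A, hA0, hA⟩ := hCUB d α hα hαd
  refine ⟨A * 3 ^ ((d : ℝ) + α), by positivity, ?_⟩
  intro δ κ κ' g b w hδ hκ hκ' hg hw hLRO L t y h ht hh hsup
  have hs : (d : ℝ) < 2 * (((d : ℝ) + α) / 2) := by linarith
  set l : ℕ := ⌊2 * t / δ⌋₊ + 1 with hl
  have hdl : δ * l ≤ 3 * max t δ := by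
    have h1 : (⌊2 * t / δ⌋₊ : ℝ) ≤ 2 * t / δ := Nat.floor_le (by positivity)
    have h2 : δ * (l : ℝ) ≤ δ * (2 * t / δ + 1) := by
      refine mul_le_mul_of_nonneg_left ?_ hδ.le
      rw [hl]
      push_cast
      linarith
    have h3 : δ * (2 * t / δ + 1) = 2 * t + δ := by field_simp
    have h4 := le_max_left t δ
    have h5 := le_max_right t δ
    linarith
  have hpow : (δ * l) ^ ((d : ℝ) + α) ≤ 3 ^ ((d : ℝ) + α) * (max t δ) ^ ((d : ℝ) + α) := by
    rw [← Real.mul_rpow (by norm_num) (ht.le.trans (le_max_left _ _))]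
    exact Real.rpow_le_rpow (by positivity) hdl (by positivity)
  -- the bound for `b' > b`
  have key : ∀ b', b < b' → ∫ φ : Bx d L → ℝ, (∑ x, w * φ x * h (bpos δ x)) ^ 2
      ∂(bgibbs d L δ κ κ' ((d + α) / 2) g b') ≤ w ^ 2 * (A / κ * (δ * l) ^ ((d : ℝ) + α)) := by
    intro b' hb'
    refine le_of_forall_pos_le_add fun ε hε => ?_
    have hpos : 0 < w ^ 2 * (2 * (l : ℝ) ^ (2 * d)) + 1 := by positivity
    obtain ⟨N, hN, hN1, hN2, hN3⟩ := hLRO b' hb' (ε / (w ^ 2 * (2 * (l : ℝ) ^ (2 * d)) + 1))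
      (div_pos hε hpos) (max (2 * L) l)
    have hLN : 2 * L ≤ N := (le_max_left _ _).trans hN1
    have hlN : l ≤ N := (le_max_right _ _).trans hN1
    set k : Fin d → ℤ := fun j => ⌈(y j - t) / δ + L - 1 / 2⌉ with hk
    have hcub : ∀ x : Bx d L, h (bpos δ x) ≠ 0 →
        (fun j => ((x j : ℕ) : ZMod N)) ∈ cub (fun j => ((k j : ℤ) : ZMod N)) l := by
      intro x hx
      unfold cub
      rw [Finset.mem_filter]
      refine ⟨Finset.mem_univ _, fun j => ?_⟩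
      have h1 := hsup _ hx j
      have h2 : (bpos δ x) j = δ * (((x j : ℕ) : ℝ) - L + 1 / 2) := rfl
      rw [h2, abs_le] at h1
      have h3 : (y j - t) / δ + L - 1 / 2 ≤ ((x j : ℕ) : ℝ) := by
        have h4 : (y j - t) / δ ≤ ((x j : ℕ) : ℝ) - L + 1 / 2 := by
          rw [div_le_iff₀ hδ]
          nlinarith [h1.1]
        linarith
      have h4 : ((x j : ℕ) : ℝ) ≤ (y j - t) / δ + L - 1 / 2 + 2 * t / δ := by
        have h5 : ((x j : ℕ) : ℝ) - L + 1 / 2 ≤ (y j + t) / δ := by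
          rw [le_div_iff₀ hδ]
          nlinarith [h1.2]
        have h6 : (y j + t) / δ = (y j - t) / δ + 2 * t / δ := by ring
        linarith
      have h5 : k j ≤ ((x j : ℕ) : ℤ) := by
        rw [hk]
        exact Int.ceil_le.2 (by exact_mod_cast h3)
      obtain ⟨m, hm⟩ := Int.eq_ofNat_of_zero_le (sub_nonneg.2 h5)
      have h6 : (m : ℝ) ≤ 2 * t / δ := by
        have h7 : (m : ℝ) = ((x j : ℕ) : ℝ) - (k j : ℝ) := by
          have h8 : ((m : ℤ) : ℝ) = ((((x j : ℕ) : ℤ) - k j : ℤ) : ℝ) := by rw [hm]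
          push_cast at h8
          exact h8
        have h8 : (y j - t) / δ + L - 1 / 2 ≤ (k j : ℝ) := Int.le_ceil _
        linarith
      have h7 : m < l := by
        rw [hl]
        exact Nat.lt_succ_of_le (Nat.le_floor h6)
      have h8 : ((x j : ℕ) : ZMod N) - ((k j : ℤ) : ZMod N) = ((m : ℕ) : ZMod N) := by
        have h9 : (((m : ℕ) : ℤ) : ZMod N) = ((((x j : ℕ) : ℤ) - k j : ℤ) : ZMod N) := by
          rw [hm]
        push_cast at h9
        exact h9.symm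
      show (((x j : ℕ) : ZMod N) - ((k j : ℤ) : ZMod N)).val < l
      rw [h8, ZMod.val_natCast, Nat.mod_eq_of_lt (lt_of_lt_of_le h7 hlN)]
      exact h7
    have h1 := box_le hBXT hGLW hMO2 d L N δ κ κ' (((d : ℝ) + α) / 2) g b' w hLN hδ hκ.le hκ' hs
      hg hw h hh (fun j => ((k j : ℤ) : ZMod N)) l hcub
    have h2 := hA N δ κ κ' g b' hN2 hδ hκ hκ' hg (fun j => ((k j : ℤ) : ZMod N)) l
      (by omega) hlN
    have h3 : w ^ 2 * (2 * (l : ℝ) ^ (2 * d) * tlro d N δ κ κ' ((d + α) / 2) g b') ≤ ε := by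
      have h4 : w ^ 2 * (2 * (l : ℝ) ^ (2 * d)) * tlro d N δ κ κ' ((d + α) / 2) g b' ≤
          w ^ 2 * (2 * (l : ℝ) ^ (2 * d)) * (ε / (w ^ 2 * (2 * (l : ℝ) ^ (2 * d)) + 1)) :=
        mul_le_mul_of_nonneg_left hN3 (by positivity)
      have h5 : w ^ 2 * (2 * (l : ℝ) ^ (2 * d)) * (ε / (w ^ 2 * (2 * (l : ℝ) ^ (2 * d)) + 1)) ≤
          ε := by
        rw [← mul_div_assoc, div_le_iff₀ hpos]
        nlinarith
      calc _ = w ^ 2 * (2 * (l : ℝ) ^ (2 * d)) * tlro d N δ κ κ' ((d + α) / 2) g b' := by ring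
        _ ≤ _ := h4
        _ ≤ ε := h5
    calc _ ≤ _ := h1
      _ ≤ w ^ 2 * (A / κ * (δ * l) ^ ((d : ℝ) + α) + 2 * (l : ℝ) ^ (2 * d) *
          tlro d N δ κ κ' ((d + α) / 2) g b') := mul_le_mul_of_nonneg_left h2 (sq_nonneg w)
      _ = w ^ 2 * (A / κ * (δ * l) ^ ((d : ℝ) + α)) +
          w ^ 2 * (2 * (l : ℝ) ^ (2 * d) * tlro d N δ κ κ' ((d + α) / 2) g b') := by ring
      _ ≤ _ := by linarith
  have hlim := hBCT d L δ κ κ' ((d + α) / 2) g b hg (fun x => w * h (bpos δ x))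
  have heq : ∀ b' : ℝ, ∫ φ : Bx d L → ℝ, (∑ x, w * φ x * h (bpos δ x)) ^ 2
      ∂(bgibbs d L δ κ κ' ((d + α) / 2) g b') =
      ∫ φ : Bx d L → ℝ, (∑ x, w * h (bpos δ x) * φ x) ^ 2
      ∂(bgibbs d L δ κ κ' ((d + α) / 2) g b') := by
    intro b'
    have h2 : ∀ φ : Bx d L → ℝ, ∑ x, w * φ x * h (bpos δ x) = ∑ x, w * h (bpos δ x) * φ x :=
      fun φ => Finset.sum_congr rfl fun x _ => by ring
    simp only [h2]
  have hfin : ∫ φ : Bx d L → ℝ, (∑ x, w * h (bpos δ x) * φ x) ^ 2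
      ∂(bgibbs d L δ κ κ' ((d + α) / 2) g b) ≤ w ^ 2 * (A / κ * (δ * l) ^ ((d : ℝ) + α)) := by
    refine le_of_tendsto (hlim.mono_left (nhdsWithin_le_nhds (s := Set.Ioi b))) ?_
    filter_upwards [self_mem_nhdsWithin] with b' hb'
    rw [← heq]
    exact key b' hb'
  rw [heq]
  refine hfin.trans ?_
  calc w ^ 2 * (A / κ * (δ * l) ^ ((d : ℝ) + α)) ≤
        w ^ 2 * (A / κ * (3 ^ ((d : ℝ) + α) * (max t δ) ^ ((d : ℝ) + α))) := by
        refine mul_le_mul_of_nonneg_left ?_ (sq_nonneg w)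
        exact mul_le_mul_of_nonneg_left hpow (by positivity)
    _ = _ := by ring

end Pool.Agent.H17.UDP
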